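import Pool.Agent.H98.ABCR.Stmts

/-!
# ABCR, module ARB: the archimedean estimate when both `x_i + y_i` are small
-/

set_option autoImplicit false

namespace Pool.Agent.H98.ABCR

open Finset Polynomial

/-- the auxiliary polynomial over `ℝ` -/
private noncomputable def arbR (k r n : ℕ) (p : ℕ → ℕ → ℤ) : ℝ[X] :=
  (Rpoly k r n p).map (Int.castRingHom ℝ)

private lemma arbR_eq (k r n : ℕ) (p : ℕ → ℕ → ℤ) :
    arbR k r n p = ∑ j ∈ range (r + 1), ∑ l ∈ range (n + 1),
      monomial (k * l + j) ((p j l : ℤ) : ℝ) := by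
  unfold arbR Rpoly
  simp only [Polynomial.map_sum, Polynomial.map_mul, Polynomial.map_pow, Polynomial.map_X,
    Polynomial.map_C, ← C_mul_X_pow_eq_monomial]
  rfl

private lemma arbR_hasse (k r n : ℕ) (p : ℕ → ℕ → ℤ) (m : ℕ) (s : ℝ) :
    (hasseDeriv m (arbR k r n p)).eval s = ∑ j ∈ range (r + 1), ∑ l ∈ range (n + 1),
      ((k * l + j).choose m : ℝ) * ((p j l : ℤ) : ℝ) * s ^ (k * l + j - m) := by
  rw [arbR_eq]
  simp only [map_sum, Polynomial.eval_finsetSum, hasseDeriv_monomial, eval_monomial]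

private lemma arbR_hasse_mul (k r n : ℕ) (p : ℕ → ℕ → ℤ) (i : ℕ) (s : ℝ) :
    s ^ i * (hasseDeriv i (arbR k r n p)).eval s = ∑ j ∈ range (r + 1), ∑ l ∈ range (n + 1),
      ((p j l : ℤ) : ℝ) * ((k * l + j).choose i : ℝ) * (s ^ k) ^ l * s ^ j := by
  rw [arbR_hasse, Finset.mul_sum]
  refine Finset.sum_congr rfl fun j _ => ?_
  rw [Finset.mul_sum]
  refine Finset.sum_congr rfl fun l _ => ?_
  rcases le_or_gt i (k * l + j) with h | h
  · have : s ^ (k * l + j) = s ^ i * s ^ (k * l + j - i) := by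
      rw [← pow_add]; congr 1; omega
    rw [← pow_mul, mul_assoc (((p j l : ℤ) : ℝ) * ((k * l + j).choose i : ℝ)), ← pow_add, this]
    ring
  · rw [Nat.choose_eq_zero_of_lt h]; simp

/-- bound for the Hasse derivatives close to `1` -/
private lemma arb_taylor (k r n M i : ℕ) (p : ℕ → ℕ → ℤ) (A s : ℝ) (hA : CoeffLe r n p A)
    (hA0 : 0 ≤ A) (hi : i < M) (hd : (X - 1 : ℤ[X]) ^ M ∣ Rpoly k r n p) (hs : |s - 1| ≤ 1) :
    |(hasseDeriv i (arbR k r n p)).eval s| ≤
      |s - 1| ^ (M - i) * (A * ((r + 1 : ℝ) * ((n + 1 : ℝ) * 3 ^ (k * n + r)))) := by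
  set R := arbR k r n p with hR
  set T := taylor 1 R with hT
  set τ := s - 1 with hτ
  have hdT : (X : ℝ[X]) ^ M ∣ T := by
    have h1 : (X - 1 : ℝ[X]) ^ M ∣ R := by
      have := Polynomial.map_dvd (Int.castRingHom ℝ) hd
      simpa [arbR, hR] using this
    have h2 : taylor 1 ((X - 1 : ℝ[X]) ^ M) ∣ taylor 1 R := by
      obtain ⟨c, hc⟩ := h1
      exact ⟨taylor 1 c, by rw [hc, taylor_mul]⟩
    have h3 : taylor (1 : ℝ) ((X - 1 : ℝ[X]) ^ M) = X ^ M := by
      simp [taylor_apply]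
    rwa [h3] at h2
  have hT0 : ∀ m, m < M → T.coeff m = 0 := by
    intro m hm
    rw [X_pow_dvd_iff] at hdT
    exact hdT m hm
  have hTc : ∀ m, |T.coeff m| ≤ ∑ j ∈ range (r + 1), ∑ l ∈ range (n + 1),
      A * ((k * l + j).choose m : ℝ) := by
    intro m
    rw [hT, taylor_coeff, hR, arbR_hasse]
    refine (Finset.abs_sum_le_sum_abs _ _).trans (Finset.sum_le_sum fun j hj => ?_)
    refine (Finset.abs_sum_le_sum_abs _ _).trans (Finset.sum_le_sum fun l hl => ?_)
    rw [one_pow, mul_one, abs_mul, Nat.abs_cast, mul_comm]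
    exact mul_le_mul_of_nonneg_right (hA j hj l hl) (Nat.cast_nonneg _)
  have hdeg : ∀ m, k * n + r < m → T.coeff m = 0 := by
    intro m hm
    have : |T.coeff m| ≤ 0 := by
      refine (hTc m).trans (le_of_eq ?_)
      refine Finset.sum_eq_zero fun j hj => Finset.sum_eq_zero fun l hl => ?_
      rw [Nat.choose_eq_zero_of_lt]
      · simp
      · have h1 : l ≤ n := by rw [Finset.mem_range] at hl; omega
        have h2 : j ≤ r := by rw [Finset.mem_range] at hj; omega
        have := Nat.mul_le_mul_left k h1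
        omega
    exact abs_nonpos_iff.mp this
  have hval : (hasseDeriv i R).eval s =
      ∑ m ∈ range (k * n + r + 1), (m.choose i : ℝ) * T.coeff m * τ ^ (m - i) := by
    have h1 : (hasseDeriv i R).eval s = (taylor s R).coeff i := by rw [taylor_coeff]
    have h2 : taylor s R = taylor τ T := by
      rw [hT, taylor_taylor, hτ]; congr 1; ring_nf
    rw [h1, h2, taylor_coeff]
    have h3 : T = ∑ m ∈ range (k * n + r + 1), monomial m (T.coeff m) := by
      ext m
      rw [finsetSum_coeff]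
      simp only [coeff_monomial]
      rw [Finset.sum_ite_eq' (range (k * n + r + 1)) m]
      split_ifs with h
      · rfl
      · exact hdeg m (by rw [Finset.mem_range] at h; omega)
    conv_lhs => rw [h3]
    simp only [map_sum, Polynomial.eval_finsetSum, hasseDeriv_monomial, eval_monomial]
  rw [hval]
  have hτ0 : 0 ≤ |τ| := abs_nonneg _
  have step : ∀ m ∈ range (k * n + r + 1), |(m.choose i : ℝ) * T.coeff m * τ ^ (m - i)| ≤
      |τ| ^ (M - i) * ∑ j ∈ range (r + 1), ∑ l ∈ range (n + 1),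
        A * (2 ^ m * ((k * l + j).choose m : ℝ)) := by
    intro m _
    rcases lt_or_ge m M with h | h
    · rw [hT0 m h]
      simp only [mul_zero, zero_mul, abs_zero]
      exact mul_nonneg (pow_nonneg hτ0 _) (Finset.sum_nonneg fun j _ => Finset.sum_nonneg fun l _ =>
        by positivity)
    · rw [abs_mul, abs_mul, abs_pow, Nat.abs_cast]
      have e1 : |τ| ^ (m - i) ≤ |τ| ^ (M - i) := pow_le_pow_of_le_one hτ0 hs (by omega)
      have e2 : (m.choose i : ℝ) ≤ 2 ^ m := by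
        have := Nat.choose_le_two_pow m i
        exact_mod_cast this
      have e3 : (m.choose i : ℝ) * |T.coeff m| ≤ ∑ j ∈ range (r + 1), ∑ l ∈ range (n + 1),
          A * (2 ^ m * ((k * l + j).choose m : ℝ)) := by
        have : (m.choose i : ℝ) * |T.coeff m| ≤ 2 ^ m * ∑ j ∈ range (r + 1), ∑ l ∈ range (n + 1),
            A * ((k * l + j).choose m : ℝ) :=
          mul_le_mul e2 (hTc m) (abs_nonneg _) (by positivity)
        refine this.trans (le_of_eq ?_)
        rw [Finset.mul_sum]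
        refine Finset.sum_congr rfl fun j _ => ?_
        rw [Finset.mul_sum]
        refine Finset.sum_congr rfl fun l _ => ?_
        ring
      have e4 := mul_le_mul e3 e1 (pow_nonneg hτ0 _)
        (Finset.sum_nonneg fun j _ => Finset.sum_nonneg fun l _ => by positivity)
      refine e4.trans (le_of_eq ?_)
      ring
  refine (Finset.abs_sum_le_sum_abs _ _).trans ((Finset.sum_le_sum step).trans ?_)
  rw [← Finset.mul_sum]
  refine mul_le_mul_of_nonneg_left ?_ (pow_nonneg hτ0 _)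
  rw [Finset.sum_comm]
  have inner : ∀ j ∈ range (r + 1), ∑ m ∈ range (k * n + r + 1), ∑ l ∈ range (n + 1),
      A * (2 ^ m * ((k * l + j).choose m : ℝ)) ≤ A * ((n + 1 : ℝ) * 3 ^ (k * n + r)) := by
    intro j hj
    rw [Finset.sum_comm]
    have : ∀ l ∈ range (n + 1), ∑ m ∈ range (k * n + r + 1), A * (2 ^ m * ((k * l + j).choose m : ℝ))
        ≤ A * 3 ^ (k * n + r) := by
      intro l hl
      have h1 : l ≤ n := by rw [Finset.mem_range] at hl; omega
      have h2 : j ≤ r := by rw [Finset.mem_range] at hj; omega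
      have h3 := Nat.mul_le_mul_left k h1
      have h4 : k * l + j ≤ k * n + r := by omega
      rw [← Finset.mul_sum]
      refine mul_le_mul_of_nonneg_left ?_ hA0
      have e5 : ∑ m ∈ range (k * n + r + 1), (2 : ℝ) ^ m * ((k * l + j).choose m : ℝ) =
          ∑ m ∈ range (k * l + j + 1), (2 : ℝ) ^ m * ((k * l + j).choose m : ℝ) := by
        symm
        refine Finset.sum_subset (fun m hm => ?_) (fun m _ hm => ?_)
        · rw [Finset.mem_range] at *; omega
        · rw [Finset.mem_range] at hm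
          rw [Nat.choose_eq_zero_of_lt (by omega)]; simp
      rw [e5]
      have e6 : ∑ m ∈ range (k * l + j + 1), (2 : ℝ) ^ m * ((k * l + j).choose m : ℝ) =
          3 ^ (k * l + j) := by
        have := add_pow (2 : ℝ) 1 (k * l + j)
        simp only [one_pow, mul_one] at this
        rw [← this]; norm_num
      rw [e6]
      exact pow_le_pow_right₀ (by norm_num) h4
    refine (Finset.sum_le_sum this).trans (le_of_eq ?_)
    rw [Finset.sum_const, Finset.card_range, nsmul_eq_mul]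
    push_cast
    ring
  refine (Finset.sum_le_sum inner).trans (le_of_eq ?_)
  rw [Finset.sum_const, Finset.card_range, nsmul_eq_mul]
  push_cast
  ring

/-- geometry of a pair with small sum -/
private lemma arb_geom (x y : ℤ) (hy : 0 < y) (h : 4 * |((x + y : ℤ) : ℝ)| ≤ ht x y) :
    (0 : ℝ) < ht x y ∧ (y : ℝ) ≤ ht x y ∧ 0 < (y : ℝ) ∧
    |-(x : ℝ) / y - 1| ≤ 4 / 3 * (|((x + y : ℤ) : ℝ)| / ht x y) ∧
    |((x + y : ℤ) : ℝ)| / ht x y ≤ 1 / 4 := by
  have hyR : (0 : ℝ) < y := by exact_mod_cast hy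
  have hH : (ht x y : ℝ) = max (max |(x : ℝ)| |(y : ℝ)|) |(x : ℝ) + y| := by
    unfold ht
    push_cast [Nat.cast_natAbs]
    rfl
  have hz : |((x + y : ℤ) : ℝ)| = |(x : ℝ) + y| := by push_cast; rfl
  rw [hz] at h ⊢
  have hyH : (y : ℝ) ≤ ht x y := by
    rw [hH]
    exact (le_abs_self _).trans ((le_max_right _ _).trans (le_max_left _ _))
  have hH0 : (0 : ℝ) < ht x y := lt_of_lt_of_le hyR hyH
  have hy34 : 3 * (ht x y : ℝ) ≤ 4 * y := by
    have hor : (ht x y : ℝ) = |(x : ℝ)| ∨ (ht x y : ℝ) = |(y : ℝ)| ∨ (ht x y : ℝ) = |(x : ℝ) + y| := by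
      rw [hH]
      rcases max_choice (max |(x : ℝ)| |(y : ℝ)|) |(x : ℝ) + y| with h1 | h1
      · rcases max_choice |(x : ℝ)| |(y : ℝ)| with h2 | h2
        · left; rw [h1, h2]
        · right; left; rw [h1, h2]
      · right; right; rw [h1]
    rcases hor with h1 | h1 | h1
    · have : |(x : ℝ)| ≤ |(x : ℝ) + y| + |(y : ℝ)| := by
        have := abs_sub_abs_le_abs_sub (x : ℝ) (-(y : ℝ))
        rw [abs_neg, sub_neg_eq_add] at this
        linarith
      rw [abs_of_pos hyR] at this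
      linarith
    · rw [abs_of_pos hyR] at h1
      linarith
    · rw [← h1] at h
      linarith
  refine ⟨hH0, hyH, hyR, ?_, ?_⟩
  · have e1 : -(x : ℝ) / y - 1 = -((x + y) / y) := by field_simp; ring
    rw [e1, abs_neg, abs_div, abs_of_pos hyR]
    rw [div_le_iff₀ hyR]
    have : 4 / 3 * (|(x : ℝ) + y| / (ht x y : ℝ)) * y = |(x : ℝ) + y| * (4 / 3 * (y / ht x y)) := by
      field_simp
    rw [this]
    refine le_mul_of_one_le_right (abs_nonneg _) ?_
    have : (3 / 4 : ℝ) ≤ y / ht x y := by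
      rw [le_div_iff₀ hH0]; linarith
    linarith
  · rw [div_le_iff₀ hH0]; linarith

private lemma arb_pow_close (k : ℕ) (s : ℝ) (hk : 0 < k) (hs : 0 < s) : |s - 1| ≤ |s ^ k - 1| := by
  rcases le_or_gt 1 s with h | h
  · have h1 : s ≤ s ^ k := le_self_pow₀ h (by omega)
    rw [abs_of_nonneg (by linarith), abs_of_nonneg (by linarith)]
    linarith
  · have h1 : s ^ k ≤ s := pow_le_of_le_one hs.le h.le (by omega)
    rw [abs_of_neg (by linarith), abs_of_neg (by linarith)]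
    linarith

private lemma arb_Fval (k r n i : ℕ) (p : ℕ → ℕ → ℤ) (x y N D : ℤ) (hy : (y : ℝ) ≠ 0)
    (hD : (D : ℝ) ≠ 0) :
    (Fval k r n i p x y N D : ℝ) = (y : ℝ) ^ n * (D : ℝ) ^ r *
      ∑ j ∈ range (r + 1), ∑ l ∈ range (n + 1),
        ((p j l : ℤ) : ℝ) * ((k * l + j).choose i : ℝ) * (-(x : ℝ) / y) ^ l * ((N : ℝ) / D) ^ j := by
  unfold Fval
  push_cast
  rw [Finset.mul_sum]
  refine Finset.sum_congr rfl fun j hj => ?_
  rw [Finset.mul_sum]
  refine Finset.sum_congr rfl fun l hl => ?_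
  have h1 : l ≤ n := by rw [Finset.mem_range] at hl; omega
  have h2 : j ≤ r := by rw [Finset.mem_range] at hj; omega
  have e1 : (y : ℝ) ^ n = (y : ℝ) ^ l * (y : ℝ) ^ (n - l) := by
    rw [← pow_add]; congr 1; omega
  have e2 : (D : ℝ) ^ r = (D : ℝ) ^ j * (D : ℝ) ^ (r - j) := by
    rw [← pow_add]; congr 1; omega
  rw [e1, e2, div_pow, div_pow]
  field_simp

/-- the part of the sum that is close to the Hasse derivative -/
private lemma arb_diff (k r n i : ℕ) (p : ℕ → ℕ → ℤ) (A u w s t : ℝ) (hk : 0 < k)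
    (hA : CoeffLe r n p A) (hA0 : 0 ≤ A) (hu : |u| ≤ 2) (hw : |w| ≤ 2) (hs : |s| ≤ 2)
    (huw : |u - w| ≤ t) :
    |∑ j ∈ range (r + 1), ∑ l ∈ range (n + 1),
      (((p j l : ℤ) : ℝ) * ((k * l + j).choose i : ℝ) * u ^ l * s ^ j -
        ((p j l : ℤ) : ℝ) * ((k * l + j).choose i : ℝ) * w ^ l * s ^ j)| ≤
      A * 16 ^ (k * n + r) * t := by
  have ht : 0 ≤ t := (abs_nonneg _).trans huw
  have term : ∀ j ∈ range (r + 1), ∀ l ∈ range (n + 1),
      |((p j l : ℤ) : ℝ) * ((k * l + j).choose i : ℝ) * u ^ l * s ^ j -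
        ((p j l : ℤ) : ℝ) * ((k * l + j).choose i : ℝ) * w ^ l * s ^ j| ≤
      A * 2 ^ (k * n + r) * (t * 2 ^ n * 2 ^ n) * 2 ^ r := by
    intro j hj l hl
    have h1 : l ≤ n := by rw [Finset.mem_range] at hl; omega
    have h2 : j ≤ r := by rw [Finset.mem_range] at hj; omega
    have h3 := Nat.mul_le_mul_left k h1
    have e0 : ((p j l : ℤ) : ℝ) * ((k * l + j).choose i : ℝ) * u ^ l * s ^ j -
        ((p j l : ℤ) : ℝ) * ((k * l + j).choose i : ℝ) * w ^ l * s ^ j =
        ((p j l : ℤ) : ℝ) * ((k * l + j).choose i : ℝ) * (u ^ l - w ^ l) * s ^ j := by ring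
    rw [e0, abs_mul, abs_mul, abs_mul, Nat.abs_cast, abs_pow]
    have b1 := hA j hj l hl
    have b2 : (((k * l + j).choose i : ℕ) : ℝ) ≤ 2 ^ (k * n + r) := by
      have a1 := Nat.choose_le_two_pow (k * l + j) i
      have a2 : 2 ^ (k * l + j) ≤ 2 ^ (k * n + r) := Nat.pow_le_pow_right (by norm_num) (by omega)
      exact_mod_cast a1.trans a2
    have b3 : |u ^ l - w ^ l| ≤ t * 2 ^ n * 2 ^ n := by
      have a1 := abs_pow_sub_pow_le u w l
      have a2 : max |u| |w| ≤ 2 := max_le hu hw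
      have a3 : max |u| |w| ^ (l - 1) ≤ 2 ^ n := by
        refine (pow_le_pow_left₀ ((abs_nonneg u).trans (le_max_left _ _)) a2 _).trans ?_
        exact pow_le_pow_right₀ (by norm_num) (by omega)
      have a4 : (l : ℝ) ≤ 2 ^ n := by
        have : l ≤ 2 ^ n := h1.trans (Nat.lt_two_pow_self).le
        exact_mod_cast this
      refine a1.trans ?_
      have a5 : |u - w| * l ≤ t * 2 ^ n := mul_le_mul huw a4 (Nat.cast_nonneg _) ht
      exact mul_le_mul a5 a3 (pow_nonneg ((abs_nonneg u).trans (le_max_left _ _)) _) (by positivity)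
    have b4 : |s| ^ j ≤ 2 ^ r := by
      refine (pow_le_pow_left₀ (abs_nonneg _) hs _).trans ?_
      exact pow_le_pow_right₀ (by norm_num) h2
    have c1 := mul_le_mul b1 b2 (Nat.cast_nonneg _) hA0
    have c2 := mul_le_mul c1 b3 (abs_nonneg _) (by positivity)
    exact mul_le_mul c2 b4 (by positivity) (by positivity)
  have tot : |∑ j ∈ range (r + 1), ∑ l ∈ range (n + 1),
      (((p j l : ℤ) : ℝ) * ((k * l + j).choose i : ℝ) * u ^ l * s ^ j -
        ((p j l : ℤ) : ℝ) * ((k * l + j).choose i : ℝ) * w ^ l * s ^ j)| ≤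
      (r + 1 : ℝ) * ((n + 1 : ℝ) * (A * 2 ^ (k * n + r) * (t * 2 ^ n * 2 ^ n) * 2 ^ r)) := by
    refine (Finset.abs_sum_le_sum_abs _ _).trans ?_
    have inner : ∀ j ∈ range (r + 1), |∑ l ∈ range (n + 1),
      (((p j l : ℤ) : ℝ) * ((k * l + j).choose i : ℝ) * u ^ l * s ^ j -
        ((p j l : ℤ) : ℝ) * ((k * l + j).choose i : ℝ) * w ^ l * s ^ j)| ≤
        (n + 1 : ℝ) * (A * 2 ^ (k * n + r) * (t * 2 ^ n * 2 ^ n) * 2 ^ r) := by
      intro j hj
      refine (Finset.abs_sum_le_sum_abs _ _).trans ((Finset.sum_le_sum (term j hj)).trans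
        (le_of_eq ?_))
      rw [Finset.sum_const, Finset.card_range, nsmul_eq_mul]
      push_cast
      ring
    refine (Finset.sum_le_sum inner).trans (le_of_eq ?_)
    rw [Finset.sum_const, Finset.card_range, nsmul_eq_mul]
    push_cast
    ring
  refine tot.trans ?_
  have r1 : (r + 1 : ℝ) ≤ 2 ^ r := by
    have : r + 1 ≤ 2 ^ r := Nat.lt_two_pow_self
    exact_mod_cast this
  have n1 : (n + 1 : ℝ) ≤ 2 ^ n := by
    have : n + 1 ≤ 2 ^ n := Nat.lt_two_pow_self
    exact_mod_cast this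
  have d1 : (r + 1 : ℝ) * ((n + 1 : ℝ) * (A * 2 ^ (k * n + r) * (t * 2 ^ n * 2 ^ n) * 2 ^ r)) ≤
      2 ^ r * (2 ^ n * (A * 2 ^ (k * n + r) * (t * 2 ^ n * 2 ^ n) * 2 ^ r)) := by
    have p1 : 0 ≤ A * 2 ^ (k * n + r) * (t * 2 ^ n * 2 ^ n) * 2 ^ r := by positivity
    exact mul_le_mul r1 (mul_le_mul_of_nonneg_right n1 p1) (by positivity) (by positivity)
  refine d1.trans ?_
  have d2 : (2 : ℝ) ^ r * (2 ^ n * (A * 2 ^ (k * n + r) * (t * 2 ^ n * 2 ^ n) * 2 ^ r)) =
      A * 2 ^ (r + n + (k * n + r) + n + n + r) * t := by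
    simp only [pow_add]; ring
  rw [d2]
  have d3 : (16 : ℝ) ^ (k * n + r) = 2 ^ (4 * (k * n + r)) := by
    rw [pow_mul]; norm_num
  rw [d3]
  refine mul_le_mul_of_nonneg_right (mul_le_mul_of_nonneg_left ?_ hA0) ht
  refine pow_le_pow_right₀ (by norm_num) ?_
  have : 1 * n ≤ k * n := Nat.mul_le_mul_right n hk
  omega

theorem arb_thm : S_ARB := by
  intro k r n M i p x1 y1 x2 y2 N D A Q hk hi hA hy1 hy2 hN hD hrel hNQ hDQ hdiv hz1 hz2
  have hk0 : 0 < k := hk.pos
  obtain ⟨H1pos, y1H, y1pos, u1c, t1c⟩ := arb_geom x1 y1 hy1 hz1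
  obtain ⟨H2pos, y2H, y2pos, u2c, t2c⟩ := arb_geom x2 y2 hy2 hz2
  set H1 : ℝ := (ht x1 y1 : ℝ) with hH1
  set H2 : ℝ := (ht x2 y2 : ℝ) with hH2
  set t1 := |((x1 + y1 : ℤ) : ℝ)| / H1 with ht1
  set t2 := |((x2 + y2 : ℤ) : ℝ)| / H2 with ht2
  have t1n : 0 ≤ t1 := div_nonneg (abs_nonneg _) H1pos.le
  have t2n : 0 ≤ t2 := div_nonneg (abs_nonneg _) H2pos.le
  set u1 := -(x1 : ℝ) / y1 with hu1
  set u2 := -(x2 : ℝ) / y2 with hu2
  set s : ℝ := (N : ℝ) / D with hs
  have hDR : (D : ℝ) ≠ 0 := by exact_mod_cast hD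
  have hNR : (N : ℝ) ≠ 0 := by exact_mod_cast hN
  obtain ⟨u1a, u1b⟩ := abs_le.mp u1c
  obtain ⟨u2a, u2b⟩ := abs_le.mp u2c
  have u1pos : 0 < u1 := by linarith
  have u2pos : 2 / 3 ≤ u2 := by linarith
  have u2p : 0 < u2 := by linarith
  have hx2 : (x2 : ℝ) ≠ 0 := by
    intro h0
    rw [hu2, h0] at u2p
    simp at u2p
  have hsk : s ^ k = u1 / u2 := by
    have hrelR : (N : ℝ) ^ k * (x2 * y1) = (D : ℝ) ^ k * (x1 * y2) := by exact_mod_cast hrel
    rw [hs, hu1, hu2, div_pow]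
    rw [div_div_div_eq, div_eq_div_iff (pow_ne_zero _ hDR)
      (mul_ne_zero y1pos.ne' (neg_ne_zero.mpr hx2))]
    linear_combination -hrelR
  have hskpos : 0 < s ^ k := by rw [hsk]; exact div_pos u1pos u2p
  have hspos : 0 < s := (Odd.pow_pos_iff hk).mp hskpos
  have hw1 : |s ^ k - 1| ≤ 2 * (t1 + t2) := by
    rw [hsk]
    have e1 : u1 / u2 - 1 = (u1 - u2) / u2 := by field_simp
    rw [e1, abs_div, abs_of_pos u2p, div_le_iff₀ u2p]
    have e2 : |u1 - u2| ≤ 4 / 3 * t1 + 4 / 3 * t2 := by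
      rw [abs_le]; constructor <;> linarith
    have e3 : 2 * (t1 + t2) * (2 / 3) ≤ 2 * (t1 + t2) * u2 :=
      mul_le_mul_of_nonneg_left u2pos (by positivity)
    linarith
  have hs1 : |s - 1| ≤ 2 * (t1 + t2) := (arb_pow_close k s hk0 hspos).trans hw1
  have hs1' : |s - 1| ≤ 1 := by linarith
  have hs2 : |s| ≤ 2 := by
    have := abs_le.mp hs1'
    rw [abs_of_pos hspos]; linarith
  have hwk : |s ^ k| ≤ 2 := by
    have h := hw1
    have := abs_le.mp h
    rw [abs_of_pos hskpos]; linarith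
  have hu1' : |u1| ≤ 2 := by rw [abs_of_pos u1pos]; linarith
  have huw : |u1 - s ^ k| ≤ 3 * t2 := by
    rw [hsk]
    have e1 : u1 - u1 / u2 = u1 * ((u2 - 1) / u2) := by field_simp
    rw [e1, abs_mul, abs_of_pos u1pos, abs_div (u2 - 1) u2, abs_of_pos u2p]
    have e2 : |u2 - 1| / u2 ≤ 4 / 3 * t2 / (2 / 3) := by
      refine div_le_div₀ (by positivity) u2c (by norm_num) u2pos
    have e3 : u1 ≤ 4 / 3 := by linarith
    calc u1 * (|u2 - 1| / u2) ≤ 4 / 3 * (4 / 3 * t2 / (2 / 3)) :=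
          mul_le_mul e3 e2 (by positivity) (by norm_num)
      _ ≤ 3 * t2 := by linarith
  have hA0 : 0 ≤ A := (abs_nonneg _).trans (hA 0 (by simp) 0 (by simp))
  have hQ0 : 0 ≤ Q := (abs_nonneg _).trans hNQ
  rw [arb_Fval k r n i p x1 y1 N D y1pos.ne' hDR]
  set Sig := ∑ j ∈ range (r + 1), ∑ l ∈ range (n + 1),
        ((p j l : ℤ) : ℝ) * ((k * l + j).choose i : ℝ) * (-(x1 : ℝ) / y1) ^ l * ((N : ℝ) / D) ^ j
    with hSig
  -- decomposition
  have hdec : Sig = s ^ i * (hasseDeriv i (arbR k r n p)).eval s +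
      ∑ j ∈ range (r + 1), ∑ l ∈ range (n + 1),
      (((p j l : ℤ) : ℝ) * ((k * l + j).choose i : ℝ) * u1 ^ l * s ^ j -
        ((p j l : ℤ) : ℝ) * ((k * l + j).choose i : ℝ) * (s ^ k) ^ l * s ^ j) := by
    rw [arbR_hasse_mul]
    simp only [Finset.sum_sub_distrib]
    rw [hSig]
    ring
  have hm1 : 1 ≤ M - i := by omega
  have hmain : |s ^ i * (hasseDeriv i (arbR k r n p)).eval s| ≤
      A * 64 ^ (k * n + r + M) * (t1 ^ (M - i) + t2) := by
    rw [abs_mul, abs_pow]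
    have b1 : |s| ^ i ≤ 2 ^ M := by
      refine (pow_le_pow_left₀ (abs_nonneg _) hs2 _).trans ?_
      exact pow_le_pow_right₀ (by norm_num) hi.le
    have b2 := arb_taylor k r n M i p A s hA hA0 hi hdiv hs1'
    have b3 : |s - 1| ^ (M - i) ≤ 4 ^ M * (t1 ^ (M - i) + t2) := by
      have c1 : |s - 1| ≤ 4 * max t1 t2 := by
        have := le_max_left t1 t2
        have := le_max_right t1 t2
        linarith
      have c2 : |s - 1| ^ (M - i) ≤ 4 ^ (M - i) * max t1 t2 ^ (M - i) := by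
        rw [← mul_pow]; exact pow_le_pow_left₀ (abs_nonneg _) c1 _
      have c3 : max t1 t2 ^ (M - i) ≤ t1 ^ (M - i) + t2 := by
        have c4 : t2 ^ (M - i) ≤ t2 := pow_le_of_le_one t2n (by linarith) (by omega)
        have c5 : 0 ≤ t1 ^ (M - i) := pow_nonneg t1n _
        rcases max_choice t1 t2 with h | h
        · rw [h]; linarith
        · rw [h]; linarith
      have c6 : (4 : ℝ) ^ (M - i) ≤ 4 ^ M := pow_le_pow_right₀ (by norm_num) (by omega)
      refine c2.trans (mul_le_mul c6 c3 (pow_nonneg (le_trans t1n (le_max_left _ _)) _)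
        (by positivity))
    have r1 : (r + 1 : ℝ) ≤ 2 ^ r := by
      have : r + 1 ≤ 2 ^ r := Nat.lt_two_pow_self
      exact_mod_cast this
    have n1 : (n + 1 : ℝ) ≤ 2 ^ n := by
      have : n + 1 ≤ 2 ^ n := Nat.lt_two_pow_self
      exact_mod_cast this
    have b4 : A * ((r + 1 : ℝ) * ((n + 1 : ℝ) * 3 ^ (k * n + r))) ≤
        A * (2 ^ r * (2 ^ n * 3 ^ (k * n + r))) := by
      refine mul_le_mul_of_nonneg_left ?_ hA0
      exact mul_le_mul r1 (mul_le_mul_of_nonneg_right n1 (by positivity)) (by positivity)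
        (by positivity)
    have tn : 0 ≤ t1 ^ (M - i) + t2 := by positivity
    have b5 : |(hasseDeriv i (arbR k r n p)).eval s| ≤
        4 ^ M * (t1 ^ (M - i) + t2) * (A * (2 ^ r * (2 ^ n * 3 ^ (k * n + r)))) :=
      b2.trans (mul_le_mul b3 b4 (by positivity) (by positivity))
    refine (mul_le_mul b1 b5 (abs_nonneg _) (by positivity)).trans ?_
    have b6 : (2 : ℝ) ^ M * (4 ^ M * (t1 ^ (M - i) + t2) * (A * (2 ^ r * (2 ^ n * 3 ^ (k * n + r)))))
        = A * (8 ^ M * (2 ^ (r + n) * 3 ^ (k * n + r))) * (t1 ^ (M - i) + t2) := by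
      have : (8 : ℝ) ^ M = 2 ^ M * 4 ^ M := by rw [← mul_pow]; norm_num
      rw [this, pow_add]; ring
    rw [b6]
    refine mul_le_mul_of_nonneg_right (mul_le_mul_of_nonneg_left ?_ hA0) tn
    have g1 : (2 : ℝ) ^ (r + n) ≤ 2 ^ (k * n + r) := by
      refine pow_le_pow_right₀ (by norm_num) ?_
      have : 1 * n ≤ k * n := Nat.mul_le_mul_right n hk0
      omega
    have g2 : (2 : ℝ) ^ (r + n) * 3 ^ (k * n + r) ≤ 6 ^ (k * n + r) := by
      have : (6 : ℝ) ^ (k * n + r) = 2 ^ (k * n + r) * 3 ^ (k * n + r) := by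
        rw [← mul_pow]; norm_num
      rw [this]
      exact mul_le_mul_of_nonneg_right g1 (by positivity)
    have g3 : (6 : ℝ) ^ (k * n + r) ≤ 64 ^ (k * n + r) :=
      pow_le_pow_left₀ (by norm_num) (by norm_num) _
    have g4 : (8 : ℝ) ^ M ≤ 64 ^ M := pow_le_pow_left₀ (by norm_num) (by norm_num) _
    have g5 : (64 : ℝ) ^ (k * n + r + M) = 64 ^ M * 64 ^ (k * n + r) := by
      rw [pow_add]; ring
    rw [g5]
    exact mul_le_mul g4 (g2.trans g3) (by positivity) (by positivity)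
  have hdiff := arb_diff k r n i p A u1 (s ^ k) s (3 * t2) hk0 hA hA0 hu1' hwk hs2 huw
  have hsum : |Sig| ≤ A * 64 ^ (k * n + r + M + 1) * (t1 ^ (M - i) + t2) := by
    rw [hdec]
    refine (abs_add_le _ _).trans ((add_le_add hmain hdiff).trans ?_)
    have g1 : A * 16 ^ (k * n + r) * (3 * t2) ≤
        A * 64 ^ (k * n + r + M) * (3 * (t1 ^ (M - i) + t2)) := by
      have g2 : (16 : ℝ) ^ (k * n + r) ≤ 64 ^ (k * n + r + M) := by
        refine (pow_le_pow_left₀ (by norm_num) (by norm_num : (16 : ℝ) ≤ 64) _).trans ?_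
        exact pow_le_pow_right₀ (by norm_num) (by omega)
      have g3 : 3 * t2 ≤ 3 * (t1 ^ (M - i) + t2) := by
        have : 0 ≤ t1 ^ (M - i) := pow_nonneg t1n _
        linarith
      exact mul_le_mul (mul_le_mul_of_nonneg_left g2 hA0) g3 (by positivity) (by positivity)
    have g4 : A * 64 ^ (k * n + r + M + 1) * (t1 ^ (M - i) + t2) =
        64 * (A * 64 ^ (k * n + r + M) * (t1 ^ (M - i) + t2)) := by
      rw [pow_succ]; ring
    rw [g4]
    have g5 : 0 ≤ A * 64 ^ (k * n + r + M) * (t1 ^ (M - i) + t2) := by positivity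
    linarith
  rw [abs_mul]
  have f1 : |(y1 : ℝ) ^ n * (D : ℝ) ^ r| ≤ H1 ^ n * Q ^ r := by
    rw [abs_mul, abs_pow, abs_pow, abs_of_pos y1pos]
    exact mul_le_mul (pow_le_pow_left₀ y1pos.le y1H _) (pow_le_pow_left₀ (abs_nonneg _) hDQ _)
      (by positivity) (by positivity)
  refine (mul_le_mul f1 hsum (abs_nonneg _) (by positivity)).trans (le_of_eq ?_)
  ring

end Pool.Agent.H98.ABCR
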